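import Mathlib
import Pool.Agent.Run7.h707.TC.Fin

/-!
# The rank part of Beilinson's conjecture for diagonal cubic curves, threefolds and fivefolds over
# `K = ℚ(√-3)`, all the coefficients being independent: a positive proportion of all of them

`K` is the field of the third roots of unity.  For `c = 0, 1, 2` let `a = (a_0, …, a_{2c+2})` run
through ALL the tuples of `2 c + 3` cube-free elements of `𝓞 K` that are congruent to third roots of
unity modulo `3` (every element prime to `3` is such an element times a cube, units included), ordered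
by `max N(a_k)`.  Let `X_a` be the smooth cubic hypersurface

  `a_0 x_0³ + … + a_{2c+2} x_{2c+2}³ = 0`

of dimension `n = 2 c + 1` over `K`.  For a set `T` of `c` indices let `δ_T = ∏ a_i ∏_{i ∈ T} a_i`, and let
`E_δ` be the curve `y² + δ y = x³`.  A tuple belongs to the family if none of the
`binomial(2 c + 3, c)` elements `δ_T` (`1`, `5` and `21` of them) is exceptional: a unit times a cube, or
`1` modulo `3` with a norm that is `1` modulo `9`.

* The family is a positive proportion of all the tuples: at least `C X^(2 c + 3)` tuples of the family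
  have all their coefficients of norm at most `X`.
* For all the tuples of the family the function `L(H^n(X_a / K), s)` is entire.
* The proportion of the tuples of the family for which ALL the groups `E_{δ_T}(K)` are finite and ALL
  the groups `Ш(E_{δ_T} / K)[3^∞]` are trivial tends exactly to `c₉ ^ binomial(2 c + 3, c)`, where
  `c₉ = ∏_{i ≥ 0} (1 - 3^{-(2 i + 1)}) > 0.639`, as if the curves were independent.
* For all of these tuples `L(H^n(X_a / K), s)` is not zero at its centre `s = c + 1`.

The `L`-function is the complete one, given by the numbers of points: for a place `v` not dividing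
`3 ∏ a_i` the eigenvalues `α` of the Frobenius on `H^n(X_a)` (`2`, `10` and `42` for `n = 1, 3, 5`) are
determined by

  `#X_a(k') = 1 + q' + ... + q'^n - ∑ α^r`

for all the finite extensions `k'` of the residue field, `q' = #k'`, `r` the degree of `k'`.  By this and
by Faltings `H^n(X_a)` is the direct sum of the `H^1(E_{δ_T})(-c)`.  At the places dividing `∏ a_i`, but not
`3`, the curves `E_{δ_T}` with `v(δ_T)` divisible by `3` are isomorphic to curves `E_r` with a `v`-unit
`r` and have good reduction, the others have no invariants of inertia; at the places dividing `3` none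
of the curves has invariants of inertia.

Relation to the conjecture (not formalized): the intermediate Jacobian `J` of `X_a` is isogenous over
`K` to the product of the `E_{δ_T}`, and the group of the homologically trivial cycles of codimension
`i + 1`, tensored with `ℚ`, is `J(K) ⊗ ℚ` for `i = c` and `0` for all the other `i` (Murre, Bloch and
Murre, Bloch and Srinivas for threefolds; Collino, Paranjape for fivefolds).  So for a positive
proportion of ALL the diagonal cubic threefolds and fivefolds with coefficients prime to `3`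
(at least `0.639 ^ 5 > 0.106` of the family for the threefolds)
`ord_{s = i + 1} L(H^{2 i + 1}(X_a), s) = rank CH^{i+1}(X_a)_hom` for all `i`, both sides being zero.

Proof: see the headers of the files `Pool/Agent/Run7/h707/TC/*.lean`.  For tuples of `m` products of
primes the `3`-Selmer groups of the twists by `M` monomials are the kernels of `M` weighted Laplacians
of one random graph whose vertices are coloured by the coordinates of the tuple; their joint law is the
product law as soon as the exponent vectors of the monomials are distinct up to sign.  This rests on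
the large sieve for the cubic symbol, the cubic reciprocity law and on the criterion for the
nonvanishing of `L(E_δ / K, 1)`, which are the joint work of the seats named in the headers of the
imported files.
-/

set_option autoImplicit false

namespace Pool.Agent.Results.MP_6dc9d1_nt.AllCoefficientsDiagonalCubics

open NumberField IsDedekindDomain WeierstrassCurve
open Pool.Agent.TH841.NF.D (Sha)
open scoped Classical

/-- The curve `E_δ : y² + δ y = x³`. -/
def curve {F : Type} [Field F] (δ : F) : WeierstrassCurve F := ⟨0, 0, δ, 0, 0⟩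

/-- The solutions, not all zero, of `∑ a i x i ^ 3 = 0` in the field `F`. -/
def solutions {m : ℕ} {F : Type} [Field F] (a : Fin m → F) : Set (Fin m → F) :=
  {x | x ≠ 0 ∧ ∑ i, a i * x i ^ 3 = 0}

/-- `δ_T = ∏ a i ∏_{i ∈ T} a i`. -/
def twist {m : ℕ} {R : Type} [CommRing R] (a : Fin m → R) (T : Finset (Fin m)) : R :=
  (∏ i, a i) * ∏ i ∈ T, a i

variable {K : Type} [Field K] [NumberField K]

/-- `A` is the multiset of the eigenvalues of the Frobenius at `v` on `H^n(X)`, for the hypersurface
`X : ∑ a i x i ^ 3 = 0` of dimension `n = 2 c + 1`: for every extension `F` of degree `r` of the residue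
field of `v` (`f` is the reduction), with `q'` elements, the equation has
`(q' - 1) (1 + q' + ... + q'^n - ∑ α^r)` nonzero solutions in `F`. -/
def IsFrobenius {c : ℕ} (a : Fin (2 * c + 3) → 𝓞 K) (v : HeightOneSpectrum (𝓞 K))
    (A : Multiset ℂ) : Prop :=
  ∀ (F : Type) [Field F] [Finite F] (f : 𝓞 K →+* F) (r : ℕ), RingHom.ker f = v.asIdeal →
    Nat.card F = Ideal.absNorm v.asIdeal ^ r →
    ((solutions fun i => f (a i)).ncard : ℂ) = (Nat.card F - 1) *
      (∑ i ∈ Finset.range (2 * c + 2), (Nat.card F : ℂ) ^ i - (A.map (fun α => α ^ r)).sum)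

/-- `δ` is a cube of `K` times an element `r` of `𝓞 K` prime to `v`; so `E_δ` is isomorphic to `E_r`
over `K` and has good reduction at `v`, if `v` does not divide `3`. -/
def HasGoodReduction (δ : 𝓞 K) (v : HeightOneSpectrum (𝓞 K)) : Prop :=
  ∃ r z z' : 𝓞 K, z ≠ 0 ∧ r ∉ v.asIdeal ∧ δ * z ^ 3 = r * z' ^ 3

/-- For a place `v` not dividing `3`: `B` is the multiset of the eigenvalues of the Frobenius at `v` on
the invariants of inertia of `H^1(E_δ)(-c)`.  If `δ` is a cube times an element `r` prime to `v`, it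
consists of `N(v)^c β` and `N(v)^c conj β`, where `β conj β = N(v)` and the affine curve
`y² + r y = x³` has `N(v) - (β + conj β)` points over the residue field; otherwise it is empty. -/
def IsLocal (δ : 𝓞 K) (v : HeightOneSpectrum (𝓞 K)) (c : ℕ) (B : Multiset ℂ) : Prop :=
  (∃ r z z' : 𝓞 K, z ≠ 0 ∧ r ∉ v.asIdeal ∧ δ * z ^ 3 = r * z' ^ 3 ∧ ∃ β : ℂ,
    β * (starRingEnd ℂ) β = Ideal.absNorm v.asIdeal ∧
    (Nat.card {P : (𝓞 K ⧸ v.asIdeal) × (𝓞 K ⧸ v.asIdeal) //
      P.2 ^ 2 + Ideal.Quotient.mk v.asIdeal r * P.2 = P.1 ^ 3} : ℂ) =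
        Ideal.absNorm v.asIdeal - (β + (starRingEnd ℂ) β) ∧
    B = {(Ideal.absNorm v.asIdeal : ℂ) ^ c * β,
      (Ideal.absNorm v.asIdeal : ℂ) ^ c * (starRingEnd ℂ) β}) ∨
  (¬ HasGoodReduction δ v ∧ B = 0)

/-- `L` is entire and equal to `L(H^n(X_a / K), s)` for `Re s > n / 2 + 1`, for the hypersurface
`X_a : ∑ a i x i ^ 3 = 0` of dimension `n = 2 c + 1`.  At the places `v` not dividing `3 ∏ a i` the
`2 (2c+3 choose c)` eigenvalues of the Frobenius have the absolute value `N(v)^(n / 2)`.  At all the
places not dividing `3` the eigenvalues are those of the `H^1(E_{δ_T})(-c)` together, `T` running through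
the sets of `c` indices.  At the places dividing `3` the Euler factor is `1`. -/
def IsLFunction {c : ℕ} (a : Fin (2 * c + 3) → 𝓞 K) (L : ℂ → ℂ) : Prop :=
  Differentiable ℂ L ∧ ∃ A : HeightOneSpectrum (𝓞 K) → Multiset ℂ,
    (∀ v, (3 : 𝓞 K) ∉ v.asIdeal → (∀ i, a i ∉ v.asIdeal) → IsFrobenius a v (A v) ∧
      (A v).card = 2 * (2 * c + 3).choose c ∧
      ∀ α ∈ A v, ‖α‖ ^ 2 = (Ideal.absNorm v.asIdeal : ℝ) ^ (2 * c + 1)) ∧
    (∀ v, (3 : 𝓞 K) ∉ v.asIdeal → ∃ B : Finset (Fin (2 * c + 3)) → Multiset ℂ,
      (∀ T : Finset (Fin (2 * c + 3)), T.card = c → IsLocal (twist a T) v c (B T)) ∧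
      A v = ∑ T ∈ (Finset.univ : Finset (Fin (2 * c + 3))).powersetCard c, B T) ∧
    (∀ v, (3 : 𝓞 K) ∈ v.asIdeal → A v = 0) ∧
    ∀ s : ℂ, (2 * c + 1 : ℝ) / 2 + 1 < s.re →
      HasProd (fun v : HeightOneSpectrum (𝓞 K) => ((A v).map
        (fun α => (1 - α * (Ideal.absNorm v.asIdeal : ℂ) ^ (-s))⁻¹)).prod) (L s)

/-- `δ` is a unit times a cube, or `1` modulo `3` with a norm that is `1` modulo `9`. -/
def Exceptional (δ : 𝓞 K) : Prop :=
  (∃ u x : 𝓞 K, IsUnit u ∧ δ = u * x ^ 3) ∨
    ((3 : 𝓞 K) ∣ δ - 1 ∧ (9 : ℤ) ∣ Algebra.norm ℤ δ - 1)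

/-- All the coefficients are cube-free and congruent to third roots of unity modulo `3`, and none of the
elements `δ_T`, `#T = c`, is exceptional. -/
def InFamily {c : ℕ} (a : Fin (2 * c + 3) → 𝓞 K) : Prop :=
  (∀ k, (∀ x : 𝓞 K, x ^ 3 ∣ a k → IsUnit x) ∧ ∃ ω : 𝓞 K, ω ^ 3 = 1 ∧ (3 : 𝓞 K) ∣ a k - ω) ∧
    ∀ T : Finset (Fin (2 * c + 3)), T.card = c → ¬ Exceptional (twist a T)

/-- `E_δ(K)` is finite and the `3`-primary part of `Ш(E_δ / K)` is trivial. -/
def FiniteAndTrivial (δ : 𝓞 K) : Prop :=
  Finite (curve (δ : K)).toAffine.Point ∧ ∀ (n : ℕ) (x : Sha (curve (δ : K))), 3 ^ n • x = 0 → x = 0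

/-- For all the sets `T` of `c` indices `E_{δ_T}(K)` is finite and the `3`-primary part of
`Ш(E_{δ_T} / K)` is trivial. -/
def AllFinite {c : ℕ} (a : Fin (2 * c + 3) → 𝓞 K) : Prop :=
  ∀ T : Finset (Fin (2 * c + 3)), T.card = c → FiniteAndTrivial (twist a T)

/-- **Main theorem.** -/
theorem result (K : Type) [Field K] [NumberField K] [IsCyclotomicExtension {3} ℚ K] :
    (0.639 : ℝ) < ∏' i : ℕ, (1 - (1 / 3 : ℝ) ^ (2 * i + 1)) ∧
    ∀ c : ℕ, c ≤ 2 →
      (∃ C : ℝ, 0 < C ∧ ∃ X₀ : ℕ, ∀ X : ℕ, X₀ ≤ X → C * (X : ℝ) ^ (2 * c + 3) ≤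
        ({a : Fin (2 * c + 3) → 𝓞 K | (∀ k, Algebra.norm ℤ (a k) ≤ X) ∧ InFamily a}.ncard : ℝ)) ∧
      Filter.Tendsto (fun X : ℕ =>
        ({a : Fin (2 * c + 3) → 𝓞 K | (∀ k, Algebra.norm ℤ (a k) ≤ X) ∧
          InFamily a ∧ AllFinite a}.ncard : ℝ) /
        ({a : Fin (2 * c + 3) → 𝓞 K | (∀ k, Algebra.norm ℤ (a k) ≤ X) ∧
          InFamily a}.ncard : ℝ)) Filter.atTop
        (nhds ((∏' i : ℕ, (1 - (1 / 3 : ℝ) ^ (2 * i + 1))) ^ (2 * c + 3).choose c)) ∧
      ∀ a : Fin (2 * c + 3) → 𝓞 K, InFamily a →
        ∃ L : ℂ → ℂ, IsLFunction a L ∧ (AllFinite a → L (c + 1) ≠ 0) :=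
  Run7.h707.TC.finT K

end Pool.Agent.Results.MP_6dc9d1_nt.AllCoefficientsDiagonalCubics
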