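import Pool.Agent.Run7.h876.LS.OddMain

/-!
# The order at the centre of the mean L-function of hypersurfaces of odd dimension

`K` is any number field, `f_j` are forms of degree `d ≥ 1` in `2i + 3` variables over its integers, and
`X_t : ∑ t_j f_j = 0` is the hypersurface in `ℙ^{2i+2}`, of dimension `2i + 1`, with parameters `t_j` in
the ring of integers.  For almost all `v` the linear system separates, over the quadratic extension of the
residue field, the points off its base locus from any three other points, and the base locus has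
`e N^i + O(N^(i-1/2))` points over the residue field and its quadratic extension (`N` elements): it has
`e` components of dimension `i`, defined over `K`.  For the system of all forms of degree `d ≥ 3` this
holds with `e = 0`.  On every smooth `X_t` the `e` components give, with the powers of the hyperplane
section, `e` homologically trivial cycles of codimension `i + 1`.

For every integer `k` the mean value over the `t` with coordinates in a large box of `L(H^{2i+1}(X_t), s)^k`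
converges for `Re s > i + 3/2` to `ζ_K(s - i)^(-ke) ζ_K(2s - 2i - 1)^(k(k-1)/2) G(s)`, where `G` is
holomorphic for `Re s > i + 5/6` and positive at the real points: the mean value continues past the centre
`s = i + 1` and **its order there is exactly `ke - k(k-1)/2`**; for `k = 1` it is the number `e`.
-/

set_option autoImplicit false
open NumberField IsDedekindDomain Filter Topology

namespace Pool.Agent.Results.MP_6dc9d1_nt.CentralOrderOfTheMean

open Run7.h876.LS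
open Run7.h876.EN (mean Thin kp)
open Run7.h876.HY (partialZeta)
open Run7.h876.MM (kv)

/-- **The order at the centre of the mean of the powers of the L-functions of hypersurfaces of odd
dimension.** -/
theorem result (K : Type) [Field K] [NumberField K] (J : Type) [Fintype J] [DecidableEq J] (i d : ℕ)
    (hd : 1 ≤ d) (f : J → MvPolynomial (Fin (2 * i + 2 + 1)) (𝓞 K)) (hf : ∀ j, (f j).IsHomogeneous d)
    (hs : (smooth f).Nonempty) (S : Set (HeightOneSpectrum (𝓞 K))) (hS : S.Finite)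
    (hsep : ∀ v, v ∉ S → ∀ (E : Type) [Field E] [Fintype E] [Algebra (kv v) E], Module.finrank (kv v) E = 2 →
      Separates3 f ((algebraMap (kv v) E).comp (res v))) (e : ℕ) (C₀ : ℝ)
    (hZ : ∀ v, v ∉ S → ∀ (E : Type) [Field E] [Fintype E] [Algebra (kv v) E], Module.finrank (kv v) E ≤ 2 →
      |(baseCone f ((algebraMap (kv v) E).comp (res v)) : ℝ) / ((Fintype.card E : ℝ) - 1) -
        e * (Fintype.card E : ℝ) ^ i| ≤ C₀ * (Fintype.card E : ℝ) ^ ((i : ℝ) - 1 / 2))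
    (b : ℕ) (α : (J → 𝓞 K) → HeightOneSpectrum (𝓞 K) → Fin b → ℂ)
    (hα : ∀ t, IsFrobenius f b t (α t)) (k κ : ℤ) (hκ : 2 * κ = k * (k - 1)) :
    ∃ G : ℂ → ℂ, DifferentiableOn ℂ G {s | (i : ℝ) + 5 / 6 < s.re} ∧
      (∀ x : ℝ, (i : ℝ) + 5 / 6 < x → ∃ y : ℝ, 0 < y ∧ G x = y) ∧
      (∃ c : ℝ, 0 < c ∧ Tendsto (fun x : ℝ => ((x : ℂ) - (i + 1)) ^ (κ - k * e) *
        (dedekindZeta K (x - i) ^ (-(k * e)) * dedekindZeta K (2 * x - (2 * i + 1)) ^ κ * G x))
        (𝓝[>] ((i : ℝ) + 1)) (𝓝 (c : ℂ))) ∧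
      ∀ (ι : Type) [Fintype ι] [DecidableEq ι] (ω : Module.Basis ι ℤ (𝓞 K)),
        (∀ δ : ℝ, 0 < δ → ∀ ε : ℝ, 0 < ε → ∃ M : ℕ, ∀ H : J → ℕ, (∀ j, M ≤ H j) →
          ∀ s : ℂ, (i : ℝ) + 3 / 2 + δ ≤ s.re →
          ‖mean ω H (smooth f) (fun t => LSeries f t (α t) s ^ k) -
            dedekindZeta K (s - i) ^ (-(k * e)) * dedekindZeta K (2 * s - (2 * i + 1)) ^ κ * G s‖ ≤ ε) ∧
        (∀ σ : ℝ, (i : ℝ) + 5 / 6 < σ → ∀ θ : ℝ, 0 < θ → ∀ ε : ℝ, 0 < ε → ∃ Z₀ : ℕ, ∀ Z : ℕ, Z₀ ≤ Z →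
          ∀ H : J → ℕ, (∀ j, Real.exp ((Z : ℝ) ^ (1 + θ)) ≤ H j) → ∀ s : ℂ, σ ≤ s.re →
          ‖mean ω H (smooth f) (fun t => partialProduct f Z t (α t) s ^ k) *
            partialZeta K Z (s - i) ^ (k * e) * (partialZeta K Z (2 * s - (2 * i + 1)) ^ κ)⁻¹ - G s‖ ≤ ε) := by
  have hZ' : ∀ v, v ∉ S → ∀ (E : Type) [Field E] [Fintype E] [Algebra (kv v) E], Module.finrank (kv v) E ≤ 2 →
      |(baseCone f ((algebraMap (kv v) E).comp (res v)) : ℝ) / ((Fintype.card E : ℝ) - 1) -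
        e * (Fintype.card E : ℝ) ^ i| ≤ |C₀| * (Fintype.card E : ℝ) ^ ((i : ℝ) - 1 / 2) := fun v hv E _ _ _ hE =>
    (hZ v hv E hE).trans (mul_le_mul_of_nonneg_right (le_abs_self _) (by positivity))
  obtain ⟨D, Bd, hD, hBd, hbad, hthin⟩ := exists_bad f hd hf hs
  have hM := maj_odd f hα hd hf hs S hS hsep e (abs_nonneg C₀) hZ' (k : ℂ)
  have hκc : kp (k : ℂ) = (κ : ℂ) := by
    have : (2 : ℂ) * κ = k * (k - 1) := by exact_mod_cast hκ
    unfold kp
    rw [← this]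
    ring
  obtain ⟨c, hc⟩ : ∃ c : Fin 2 → ℤ, c = ![-(k * e), κ] := ⟨_, rfl⟩
  have hn : (![-((k : ℂ) * ((e : ℝ) : ℂ)), kp (k : ℂ)] : Fin 2 → ℂ) = fun l => (c l : ℂ) := by
    funext l
    fin_cases l
    · simp [hc]
    · simp [hc, hκc]
  have hn2 : (fun l => (c l : ℂ)) = fun l => (((c l : ℤ) : ℝ) : ℂ) := by funext l; simp
  rw [hn] at hM
  have hA := Run7.h876.GN.adm_second (LD f hα) i (LD_h2 f hα)
  set G := Run7.h876.GN.GG (LD f hα) (Run7.h876.GN.e2 i) Run7.h876.GN.f2 k (fun l => (c l : ℂ)) with hG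
  have hGd : DifferentiableOn ℂ G {s | (i : ℝ) + 5 / 6 < s.re} := Run7.h876.GN.GG_diff hA hM
  have hGr : ∀ x : ℝ, (i : ℝ) + 5 / 6 < x → ∃ y : ℝ, 0 < y ∧ G x = y := by
    intro x hx
    have h1 := Run7.h876.GN.GG_real (A := LD f hα) (e := Run7.h876.GN.e2 i) (f := Run7.h876.GN.f2) (σ₀ := (i : ℝ) + 5 / 6)
      (k := (k : ℝ)) (c := fun l => ((c l : ℤ) : ℝ)) (by
        rw [← hn2, Complex.ofReal_intCast]
        exact hM) hx
    rw [← hn2, Complex.ofReal_intCast] at h1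
    exact h1
  have hprod : ∀ g : Fin 2 → ℤ → ℂ, ∏ l, g l (c l) = g 0 (-(k * e)) * g 1 κ := by
    intro g
    rw [Fin.prod_univ_two, hc]
    rfl
  refine ⟨G, hGd, hGr, ?_, fun ι _ _ ω => ?_⟩
  · obtain ⟨c', hc', h⟩ := centre_order (K := K) i hGd hGr (-(k * e)) κ
    exact ⟨c', hc', h⟩
  obtain ⟨Cb, hCb, hth⟩ := hthin ι ω
  refine ⟨fun δ hδ ε hε => ?_, fun σ hσ θ hθ ε hε => ?_⟩
  · obtain ⟨M, hM'⟩ := Run7.h876.GN.part1 ω hA hM hth (σ := (i : ℝ) + 3 / 2 + δ)
      (by rw [LD_h2]; linarith) (by linarith) (fun l => by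
        fin_cases l
        · show 1 < ((1 : ℕ) : ℝ) * ((i : ℝ) + 3 / 2 + δ) - ((i : ℕ) : ℝ)
          push_cast; linarith
        · show 1 < ((2 : ℕ) : ℝ) * ((i : ℝ) + 3 / 2 + δ) - ((2 * i + 1 : ℕ) : ℝ)
          push_cast; linarith) hε
    refine ⟨M, fun H hH s hss => ?_⟩
    have h := hM' H hH s hss
    rw [hprod (fun l z => dedekindZeta K (Run7.h876.GN.f2 l * s - Run7.h876.GN.e2 i l) ^ z)] at h
    have e0 : ((Run7.h876.GN.f2 0 : ℕ) : ℂ) * s - ((Run7.h876.GN.e2 i 0 : ℕ) : ℂ) = s - i := by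
      show ((1 : ℕ) : ℂ) * s - ((i : ℕ) : ℂ) = s - i
      push_cast; ring
    have e1 : ((Run7.h876.GN.f2 1 : ℕ) : ℂ) * s - ((Run7.h876.GN.e2 i 1 : ℕ) : ℂ) = 2 * s - (2 * i + 1) := by
      show ((2 : ℕ) : ℂ) * s - ((2 * i + 1 : ℕ) : ℂ) = 2 * s - (2 * i + 1)
      push_cast; ring
    rw [e0, e1] at h
    have e' : (fun t => LSeries f t (α t) s ^ k) = fun t => Run7.h876.GN.LL (LD f hα) t s ^ k := by
      funext t
      rw [LSeries_eq f hα t (by push_cast; linarith)]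
    rw [e']
    exact h
  · obtain ⟨Z₀, hZ0⟩ := Run7.h876.GN.part2 ω hA hM hCb hth hσ hθ hε
    refine ⟨Z₀, fun Z hZZ H hH s hss => ?_⟩
    have h := hZ0 Z hZZ H hH s hss
    rw [hprod (fun l z => (partialZeta K Z (Run7.h876.GN.f2 l * s - Run7.h876.GN.e2 i l) ^ z)⁻¹)] at h
    have e0 : ((Run7.h876.GN.f2 0 : ℕ) : ℂ) * s - ((Run7.h876.GN.e2 i 0 : ℕ) : ℂ) = s - i := by
      show ((1 : ℕ) : ℂ) * s - ((i : ℕ) : ℂ) = s - i
      push_cast; ring
    have e1 : ((Run7.h876.GN.f2 1 : ℕ) : ℂ) * s - ((Run7.h876.GN.e2 i 1 : ℕ) : ℂ) = 2 * s - (2 * i + 1) := by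
      show ((2 : ℕ) : ℂ) * s - ((2 * i + 1 : ℕ) : ℂ) = 2 * s - (2 * i + 1)
      push_cast; ring
    rw [e0, e1, zpow_neg, inv_inv, ← mul_assoc] at h
    have e' : (fun t => partialProduct f Z t (α t) s ^ k) = fun t => (∏ v ∈ Run7.h876.MM.SZ K Z,
        Run7.h876.GN.ef (LD f hα) v (Run7.h876.EN.rd v t) s) ^ k := by
      funext t
      rw [partialProduct_eq f hα Z t (by push_cast; linarith)]
    rw [e']
    exact h

end Pool.Agent.Results.MP_6dc9d1_nt.CentralOrderOfTheMean
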