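import Pool.Agent.Run7.h876.LS.OddLaw
import Pool.Agent.Run7.h876.PW.Gen

/-!
# The law of the central products of hypersurfaces of odd dimension

`K` is any number field, `f_j` are forms of degree `d ≥ 1` in `2i + 3` variables over its integers, and
`X_t : ∑ t_j f_j = 0` is the hypersurface in `ℙ^{2i+2}`, of dimension `2i + 1`, with parameters `t_j` in
the ring of integers.  For almost all `v` the linear system separates, over the quadratic extension of the
residue field, the points off its base locus from any three other points, and the base locus has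
`e N^i + O(N^(i-1/2))` points over the residue field and its quadratic extension (`N` elements): it has
`e` components of dimension `i`, defined over `K`.  For the system of all forms of degree `d ≥ 3` this
holds with `e = 0`.  On every smooth `X_t` the `e` components give, with the powers of the hyperplane
section, `e` homologically trivial cycles of codimension `i + 1`.

`B_Z(t) = ∏_{Nv ≤ Z} |det(1 - Frob_v Nv^(-(i+1)) | H^(2i+1)(X_t))|` is the product of the inverses of the Euler factors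
at the centre (for curves: the product `∏ #J(k_v) / Nv^g` of Birch and Swinnerton-Dyer).  If `L` has a zero of order `r`
at the centre and satisfies the Riemann hypothesis in the strong form of Birch and Swinnerton-Dyer, then `log B_Z` is
`r log log Z` up to a bounded quantity.  The law of `log B_Z(t)` over the `t` in a box of sides `H_j` is, for all `Z` up to a
power of `H`, the normal law of mean `(e + 1/2) log log Z` and variance `log log Z`; `e` is the integer nearest to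
`log B_Z / log M_Z - 1/2`, at once for all `Z ≥ Z₀` up to a power of `H`, except for a proportion
`O((log log Z₀)^(-k))` of all members.
-/

set_option autoImplicit false
open NumberField IsDedekindDomain Filter Topology

namespace Pool.Agent.Results.MP_6dc9d1_nt.LawOfCentralProducts

open Run7.h876.LS
open Run7.h876.EN (mean Thin)
open Run7.h876.MM (kv)
open Run7.h9.BS (prop Phi zetaProd)

theorem nonempty_index {K : Type} [Field K] [NumberField K] {J : Type} [Fintype J] {i : ℕ}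
    (f : J → MvPolynomial (Fin (2 * i + 2 + 1)) (𝓞 K)) (hs : (smooth f).Nonempty) : Nonempty J := by
  by_contra h
  rw [not_nonempty_iff] at h
  obtain ⟨t, ht⟩ := hs
  have h1 : form f (toBar K) (fun i => toBar K (t i)) = 0 := by
    unfold form
    simp
  have ht' : Pool.Agent.Y722.HS.IsSmooth (form f (toBar K) (fun i => toBar K (t i))) := ht
  rw [h1] at ht'
  obtain ⟨l, hl⟩ := ht' (fun _ => 1) (fun h2 => one_ne_zero (congrFun h2 0)) (by rw [map_zero])
  exact hl (by rw [map_zero, map_zero])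

/-- **The law of the central products of hypersurfaces of odd dimension.** -/
theorem result (K : Type) [Field K] [NumberField K] (J : Type) [Fintype J] [DecidableEq J] (i d : ℕ)
    (hd : 1 ≤ d) (f : J → MvPolynomial (Fin (2 * i + 2 + 1)) (𝓞 K)) (hf : ∀ j, (f j).IsHomogeneous d)
    (hs : (smooth f).Nonempty) (S : Set (HeightOneSpectrum (𝓞 K))) (hS : S.Finite)
    (hsep : ∀ v, v ∉ S → ∀ (E : Type) [Field E] [Fintype E] [Algebra (kv v) E], Module.finrank (kv v) E = 2 →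
      Separates3 f ((algebraMap (kv v) E).comp (res v))) (e : ℕ) (C₀ : ℝ)
    (hZ : ∀ v, v ∉ S → ∀ (E : Type) [Field E] [Fintype E] [Algebra (kv v) E], Module.finrank (kv v) E ≤ 2 →
      |(baseCone f ((algebraMap (kv v) E).comp (res v)) : ℝ) / ((Fintype.card E : ℝ) - 1) -
        e * (Fintype.card E : ℝ) ^ i| ≤ C₀ * (Fintype.card E : ℝ) ^ ((i : ℝ) - 1 / 2))
    (b : ℕ) (α : (J → 𝓞 K) → HeightOneSpectrum (𝓞 K) → Fin b → ℂ)
    (hα : ∀ t, IsFrobenius f b t (α t)) :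
    -- all complex moments
    (∃ Ψ : ℂ → ℂ, Differentiable ℂ Ψ ∧ Ψ 0 = 1 ∧ (∀ x : ℝ, ∃ y : ℝ, 0 < y ∧ Ψ x = y) ∧
      ∀ (ι : Type) [Fintype ι] [DecidableEq ι] (ω : Module.Basis ι ℤ (𝓞 K)) (R : ℝ), 0 ≤ R → ∀ θ : ℝ, 0 < θ → ∀ ε : ℝ, 0 < ε →
        ∃ Z₀ : ℕ, ∀ Z : ℕ, Z₀ ≤ Z → ∀ H : J → ℕ, (∀ j, Real.exp ((Z : ℝ) ^ (1 + θ)) ≤ H j) → ∀ κ : ℂ, ‖κ‖ ≤ R →
          ‖mean ω H (smooth f) (fun t => (centralProduct f Z t (α t) : ℂ) ^ κ) *
            (zetaProd K Z : ℂ) ^ (-(κ * (e + 1 / 2) + κ ^ 2 / 2)) - Ψ κ‖ ≤ ε) ∧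
    ∀ (ι : Type) [Fintype ι] [DecidableEq ι] (ω : Module.Basis ι ℤ (𝓞 K)),
      -- the normal law
      (∀ a ε : ℝ, 0 < ε → ∃ C Z₀ : ℕ, ∀ Z : ℕ, Z₀ ≤ Z → ∀ H : J → ℕ, (∀ j, Z ^ C ≤ H j) →
        |prop ω H (smooth f) (fun t => Real.log (centralProduct f Z t (α t)) ≤
          (e + 1 / 2) * Real.log (zetaProd K Z) + a * Real.sqrt (Real.log (zetaProd K Z))) - Phi a| ≤ ε) ∧
      -- large deviations
      (∀ a : ℝ, 0 < a → ∃ C : ℝ, 0 < C ∧ ∃ Z₀ : ℕ, ∀ Z : ℕ, Z₀ ≤ Z →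
        ∀ H : J → ℕ, (∀ j, (Z : ℝ) ^ (C * Real.log (zetaProd K Z)) ≤ H j) →
        prop ω H (smooth f) (fun t => a * Real.log (zetaProd K Z) ≤
          |Real.log (centralProduct f Z t (α t)) - (e + 1 / 2) * Real.log (zetaProd K Z)|) ≤
            C * zetaProd K Z ^ (-(a ^ 2 / 2))) ∧
      (∀ k : ℕ, ∃ C : ℕ, ∃ A : ℝ, 0 < A ∧ ∃ Z₀ : ℕ, ∀ Z : ℕ, Z₀ ≤ Z → ∀ H : J → ℕ, (∀ j, Z ^ C ≤ H j) → ∀ a : ℝ, 0 < a →
        prop ω H (smooth f) (fun t => a * Real.log (zetaProd K Z) ≤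
          |Real.log (centralProduct f Z t (α t)) - (e + 1 / 2) * Real.log (zetaProd K Z)|) ≤
            A / (a ^ (2 * k) * Real.log (zetaProd K Z) ^ k)) ∧
      -- all bounds `Z` up to a power of the sides at once
      (∀ δ : ℝ, 0 < δ → ∀ k : ℕ, ∃ C : ℕ, ∃ A : ℝ, 0 < A ∧ ∃ Z₁ : ℕ, ∀ Z₀ : ℕ, Z₁ ≤ Z₀ → ∀ H : J → ℕ,
        prop ω H (smooth f) (fun t => ∃ Z : ℕ, Z₀ ≤ Z ∧ (∀ j, Z ^ C ≤ H j) ∧
          Real.log (zetaProd K Z) ^ (1 / 2 + δ) <
            |Real.log (centralProduct f Z t (α t)) - (e + 1 / 2) * Real.log (zetaProd K Z)|) ≤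
              A / Real.log (zetaProd K Z₀) ^ k) ∧
      -- the number `e` is read off from the products
      (∀ k : ℕ, ∃ C : ℕ, ∃ A : ℝ, 0 < A ∧ ∃ Z₁ : ℕ, ∀ Z₀ : ℕ, Z₁ ≤ Z₀ → ∀ H : J → ℕ,
        prop ω H (smooth f) (fun t => ∃ Z : ℕ, Z₀ ≤ Z ∧ (∀ j, Z ^ C ≤ H j) ∧
          round (Real.log (centralProduct f Z t (α t)) / Real.log (zetaProd K Z) - 1 / 2) ≠ e) ≤
            A / Real.log (zetaProd K Z₀) ^ k) ∧
      (∃ C : ℝ, 0 < C ∧ ∃ Z₀ : ℕ, ∀ Z : ℕ, Z₀ ≤ Z →
        ∀ H : J → ℕ, (∀ j, (Z : ℝ) ^ (C * Real.log (zetaProd K Z)) ≤ H j) →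
        prop ω H (smooth f) (fun t =>
          round (Real.log (centralProduct f Z t (α t)) / Real.log (zetaProd K Z) - 1 / 2) ≠ e) ≤
            C * zetaProd K Z ^ (-(1 / 8) : ℝ)) := by
  have hZ' : ∀ v, v ∉ S → ∀ (E : Type) [Field E] [Fintype E] [Algebra (kv v) E], Module.finrank (kv v) E ≤ 2 →
      |(baseCone f ((algebraMap (kv v) E).comp (res v)) : ℝ) / ((Fintype.card E : ℝ) - 1) -
        e * (Fintype.card E : ℝ) ^ i| ≤ |C₀| * (Fintype.card E : ℝ) ^ ((i : ℝ) - 1 / 2) := fun v hv E _ _ _ hE =>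
    (hZ v hv E hE).trans (mul_le_mul_of_nonneg_right (le_abs_self _) (by positivity))
  haveI := nonempty_index f hs
  obtain ⟨D, Bd, hD, hBd, hbad, hthin⟩ := exists_bad f hd hf hs
  obtain ⟨𝓛, hm, hD1, hlam, hB⟩ := exists_data f hα hd hf hs S hS hsep e (abs_nonneg C₀) hZ'
  have hδ : 𝓛.m = ((e : ℤ) : ℝ) + 1 / 2 := by rw [hm]; push_cast; ring
  have hA : (0 : ℝ) < 4 * b + 1 := by positivity
  refine ⟨⟨𝓛.Psi, 𝓛.Psi_diff, 𝓛.Psi_zero, 𝓛.Psi_real, fun ι _ _ ω R hR θ hθ ε hε => ?_⟩, fun ι _ _ ω => ?_⟩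
  · obtain ⟨Cb, hCb, hth⟩ := hthin ι ω
    have h := Run7.h9.TP.gen_mod ω 𝓛 (fun Z t => centralProduct f Z t (α t)) hB hCb hth hR hθ hε
    rw [hm, hD1] at h
    obtain ⟨Z₀, hZ₀⟩ := h
    refine ⟨Z₀, fun Z hZZ H hH κ hκ => ?_⟩
    have h1 := hZ₀ Z hZZ H hH κ hκ
    push_cast at h1
    rw [mul_one] at h1
    exact h1
  · obtain ⟨Cb, hCb, hth⟩ := hthin ι ω
    refine ⟨fun a ε hε => ?_, fun a ha => ?_, fun k => ?_, fun δ hδ' k => ?_, fun k => ?_, ?_⟩
    · have h := Run7.h876.PW.pw_clt ω 𝓛 (fun Z t => centralProduct f Z t (α t)) hB hCb hth a hε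
      rw [hm, hD1] at h
      simp only [one_mul] at h
      exact h
    · have h := Run7.h876.PW.pw_tail ω 𝓛 (fun Z t => centralProduct f Z t (α t)) hB hth ha
      rw [hm, hD1] at h
      simp only [mul_one] at h
      exact h
    · have h := Run7.h876.PW.pw_tail_pow ω 𝓛 (fun Z t => centralProduct f Z t (α t)) hB hth k
      rw [hm] at h
      exact h
    · have h := Run7.h876.PW.Al.pw_all ω 𝓛 (fun Z t => centralProduct f Z t (α t)) hB hth hA hlam hδ' k
      rw [hm] at h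
      exact h
    · exact Run7.h876.PW.Al.pw_all_round ω 𝓛 (fun Z t => centralProduct f Z t (α t)) hB hth hA hlam (e : ℤ) (1 / 2) hδ k
    · have h := Run7.h876.PW.pw_round ω 𝓛 (fun Z t => centralProduct f Z t (α t)) hB hth (e : ℤ) (1 / 2) hδ
      rw [hD1] at h
      simp only [mul_one] at h
      exact h

end Pool.Agent.Results.MP_6dc9d1_nt.LawOfCentralProducts
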