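import Mathlib
import Pool.Agent.Run7.h707.TF.FinS
import Pool.Agent.Run7.h707.TF.FinL
import Pool.Agent.Run7.h707.TE.Ex

/-!
# The rank conjecture for ALL the families of diagonal cubic curves, threefolds and fivefolds with some
# fixed and some free coefficients, over every fixed field `F = K(∛d_1, …, ∛d_r)`, `K = ℚ(√-3)`

Let `k = 0, 1, 2`.  We fix

* `d_1, …, d_r ∈ 𝓞 K` (`r ≥ 0`), independent modulo cubes, `F = K(∛d_1, …, ∛d_r)`;
* a nonempty set `S` of indices in `{0, …, 2 k + 2}`, and the coefficients `b_i`, `i ∉ S`.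

For `a = (a_i)_{i ∈ S}` let `X_a` be the smooth cubic hypersurface `∑_{i ∈ S} a_i x_i³ + ∑_{i ∉ S} b_i x_i³ = 0`
of dimension `n = 2 k + 1`, considered over `F`.  All the `a_i`, `b_i` and `d_i` are cube-free elements of
`𝓞 K` that are congruent to third roots of unity modulo `3` (every element prime to `3` is such an
element times a cube), the `a` run through ALL the tuples of such elements, ordered by the maximum of
the norms.  For instance `x_0³ + x_1³ + x_2³ + x_3³ + a x_4³ = 0`, or `a_0 x_0³ + a_1 x_1³ + 2 x_2³ = 0`, or all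
the coefficients are free.

For a set `T` of `k` indices let `δ_T = ∏ x_i ∏_{i ∈ T} x_i`, the products of the coefficients, and
`d^ν = ∏ d_i^{ν_i}` for `ν ∈ (ℤ/3)^r`.  The cohomology of `X_a` is the sum of the `H^1(E_{δ_T})(-k)`,
`E_δ : y² + δ y = x³`, and over `F` the pairs `(T, ν)` give the twists `δ_T d^ν` over `K`, some of which may be
identically equal or inverse to each other (modulo cubes) because of the fixed coefficients.  Let `N` be
the number of these classes of pairs: two pairs are related, if the product of the first twist with the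
second one or with its square is a cube for ALL the values of the free coefficients, and `N` is the
number of the elements of any system `R` of representatives.

* The tuples `a` such that no `δ_T d^ν` is exceptional (a unit times a cube, or `1` modulo `3` with a norm
  that is `1` modulo `9`) have a density `κ` among ALL the tuples, an explicit number in
  `9^{-|S|} ℤ`, positive as soon as there is one such tuple.
* For all of them `L(H^n(X_a / F), s)` is entire.
* Those for which ALL the `E_{δ_T d^ν}(K)` are finite and ALL the `Ш(E_{δ_T d^ν} / K)[3^∞]` are trivial have,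
  among ALL the tuples, exactly the density `κ c₉^N`, `c₉ = ∏_{i ≥ 0} (1 - 3^{-(2 i + 1)}) > 0.639`: twists
  that are not related are independent, related ones agree.
* For these `a` the value of `L(H^n(X_a / F), s)` at the centre `s = k + 1` is not zero, all the groups
  `E_{δ_T}(F)` are finite and the groups `Ш(E_{δ_T} / F)[3^∞]` are killed by `3^r`.

The `L`-function over `F` is the complete one, given by the numbers of points, as in my files for the
families with all the coefficients free, `MP_6dc9d1_nt/AllCoefficientsDiagonalCubics` (over `K`) and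
`MP_b8021b_nt/DiagonalCubicsRadicalFields` (the field varies with the coefficients); these are the
cases where the law of large numbers can be used for all the parameters, and nothing follows from
them for a fixed field or for a family with a fixed coefficient, which have density zero there.  The
starting files `MajorityDiagonalCubics` have coefficients in the group generated by one element `D` and
the cubes, over `K` and `K(∛D)`.

Relation to the conjecture (not formalized): the intermediate Jacobian `J` of `X_a` is isogenous over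
`K` to the product of the `E_{δ_T}`, and the group of the homologically trivial cycles of codimension
`m` of `X_a / F`, tensored with `ℚ`, is `J(F) ⊗ ℚ` for `m = k + 1` (Murre, Bloch and Murre, Bloch and
Srinivas for threefolds; Collino, Paranjape for fivefolds).  So both sides of the conjecture are zero.

Proof: see the headers of the files `Pool/Agent/Run7/h707/{TC,TD,TE,TF}/*.lean`.  The criterion for the
nonvanishing of `L(E_δ / K, 1)`, the descent of the points and of `Ш` and the large sieve are the joint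
work of the seats named in the headers of the imported files.
-/

set_option autoImplicit false

namespace Pool.Agent.Results.MP_6dc9d1_nt.PartlyFixedCoefficients

open NumberField IsDedekindDomain WeierstrassCurve
open Pool.Agent.TH841.NF.D (Sha)
open scoped Classical

/-- The curve `E_δ : y² + δ y = x³`. -/
def curve {F : Type} [Field F] (δ : F) : WeierstrassCurve F := ⟨0, 0, δ, 0, 0⟩

/-- The solutions, not all zero, of `∑ a i x i ^ 3 = 0` in the field `F`. -/
def solutions {m : ℕ} {F : Type} [Field F] (a : Fin m → F) : Set (Fin m → F) :=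
  {x | x ≠ 0 ∧ ∑ i, a i * x i ^ 3 = 0}

/-- `δ_T = ∏ a i ∏_{i ∈ T} a i`. -/
def twist {m : ℕ} {R : Type} [CommRing R] (a : Fin m → R) (T : Finset (Fin m)) : R :=
  (∏ i, a i) * ∏ i ∈ T, a i

/-- `b^ν = ∏ b i ^ ν i`, the exponents in `{0, 1, 2}`. -/
def power {r : ℕ} {R : Type} [CommRing R] (b : Fin r → R) (ν : Fin r → ZMod 3) : R :=
  ∏ i, b i ^ (ν i).val

section localData
variable {F : Type} [Field F] [NumberField F]

/-- `A` is the multiset of the eigenvalues of the Frobenius at `v` on `H^n(X)`, for the hypersurface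
`X : ∑ a i x i ^ 3 = 0` of dimension `n = 2 c + 1` over `F`: for every extension `k` of degree `m` of the
residue field of `v` (`f` is the reduction), with `q'` elements, the equation has
`(q' - 1) (1 + q' + ... + q'^n - ∑ α^m)` nonzero solutions in `k`. -/
def IsFrobenius {c : ℕ} (a : Fin (2 * c + 3) → 𝓞 F) (v : HeightOneSpectrum (𝓞 F))
    (A : Multiset ℂ) : Prop :=
  ∀ (k : Type) [Field k] [Finite k] (f : 𝓞 F →+* k) (m : ℕ), RingHom.ker f = v.asIdeal →
    Nat.card k = Ideal.absNorm v.asIdeal ^ m →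
    ((solutions fun i => f (a i)).ncard : ℂ) = (Nat.card k - 1) *
      (∑ i ∈ Finset.range (2 * c + 2), (Nat.card k : ℂ) ^ i - (A.map (fun α => α ^ m)).sum)

/-- `δ` is a cube of `F` times an element `r` of `𝓞 F` prime to `v`; so `E_δ` is isomorphic to `E_r`
over `F` and has good reduction at `v`, if `v` does not divide `3`. -/
def HasGoodReduction (δ : 𝓞 F) (v : HeightOneSpectrum (𝓞 F)) : Prop :=
  ∃ r z z' : 𝓞 F, z ≠ 0 ∧ r ∉ v.asIdeal ∧ δ * z ^ 3 = r * z' ^ 3

/-- For a place `v` not dividing `3`: `B` is the multiset of the eigenvalues of the Frobenius at `v` on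
the invariants of inertia of `H^1(E_δ)(-c)`.  If `δ` is a cube times an element `r` prime to `v`, it
consists of `N(v)^c β` and `N(v)^c conj β`, where `β conj β = N(v)` and the affine curve
`y² + r y = x³` has `N(v) - (β + conj β)` points over the residue field; otherwise it is empty. -/
def IsLocal (δ : 𝓞 F) (v : HeightOneSpectrum (𝓞 F)) (c : ℕ) (B : Multiset ℂ) : Prop :=
  (∃ r z z' : 𝓞 F, z ≠ 0 ∧ r ∉ v.asIdeal ∧ δ * z ^ 3 = r * z' ^ 3 ∧ ∃ β : ℂ,
    β * (starRingEnd ℂ) β = Ideal.absNorm v.asIdeal ∧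
    (Nat.card {P : (𝓞 F ⧸ v.asIdeal) × (𝓞 F ⧸ v.asIdeal) //
      P.2 ^ 2 + Ideal.Quotient.mk v.asIdeal r * P.2 = P.1 ^ 3} : ℂ) =
        Ideal.absNorm v.asIdeal - (β + (starRingEnd ℂ) β) ∧
    B = {(Ideal.absNorm v.asIdeal : ℂ) ^ c * β,
      (Ideal.absNorm v.asIdeal : ℂ) ^ c * (starRingEnd ℂ) β}) ∨
  (¬ HasGoodReduction δ v ∧ B = 0)

/-- `L` is entire and equal to `L(H^n(X_a / F), s)` for `Re s > n / 2 + 1`, for the hypersurface
`X_a : ∑ a i x i ^ 3 = 0` of dimension `n = 2 c + 1` over `F`.  At the places `v` not dividing `3 ∏ a i` the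
`2 (2c+3 choose c)` eigenvalues of the Frobenius have the absolute value `N(v)^(n / 2)`.  At all the
places not dividing `3` the eigenvalues are those of the `H^1(E_{δ_T})(-c)` together, `T` running through
the sets of `c` indices.  At the places dividing `3` the Euler factor is `1`. -/
def IsLFunction {c : ℕ} (a : Fin (2 * c + 3) → 𝓞 F) (L : ℂ → ℂ) : Prop :=
  Differentiable ℂ L ∧ ∃ A : HeightOneSpectrum (𝓞 F) → Multiset ℂ,
    (∀ v, (3 : 𝓞 F) ∉ v.asIdeal → (∀ i, a i ∉ v.asIdeal) → IsFrobenius a v (A v) ∧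
      (A v).card = 2 * (2 * c + 3).choose c ∧
      ∀ α ∈ A v, ‖α‖ ^ 2 = (Ideal.absNorm v.asIdeal : ℝ) ^ (2 * c + 1)) ∧
    (∀ v, (3 : 𝓞 F) ∉ v.asIdeal → ∃ B : Finset (Fin (2 * c + 3)) → Multiset ℂ,
      (∀ T : Finset (Fin (2 * c + 3)), T.card = c → IsLocal (twist a T) v c (B T)) ∧
      A v = ∑ T ∈ (Finset.univ : Finset (Fin (2 * c + 3))).powersetCard c, B T) ∧
    (∀ v, (3 : 𝓞 F) ∈ v.asIdeal → A v = 0) ∧
    ∀ s : ℂ, (2 * c + 1 : ℝ) / 2 + 1 < s.re →
      HasProd (fun v : HeightOneSpectrum (𝓞 F) => ((A v).map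
        (fun α => (1 - α * (Ideal.absNorm v.asIdeal : ℂ) ^ (-s))⁻¹)).prod) (L s)

end localData

variable {K : Type} [Field K] [NumberField K]

/-- The elements `d i` are independent modulo cubes. -/
def Independent {r : ℕ} (d : Fin r → 𝓞 K) : Prop :=
  ∀ ν : Fin r → ZMod 3, ν ≠ 0 → ∀ y : 𝓞 K, y ^ 3 ≠ power d ν

/-- `F` is generated over `K` by the cube roots `θ i` of the elements `d i`. -/
def IsRadical {r : ℕ} (d : Fin r → 𝓞 K) (F : Type) [Field F] [Algebra K F] (θ : Fin r → F) : Prop :=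
  (∀ i, θ i ^ 3 = algebraMap K F (d i)) ∧
    ∀ S : Subfield F, (∀ x : K, algebraMap K F x ∈ S) → (∀ i, θ i ∈ S) → S = ⊤

/-- `a` is cube-free and congruent to a third root of unity modulo `3`. -/
def Admissible (a : 𝓞 K) : Prop :=
  (∀ x : 𝓞 K, x ^ 3 ∣ a → IsUnit x) ∧ ∃ ω : 𝓞 K, ω ^ 3 = 1 ∧ (3 : 𝓞 K) ∣ a - ω

/-- `δ` is `1` modulo `3` and its norm is `1` modulo `9`. -/
def IsOne (δ : 𝓞 K) : Prop := (3 : 𝓞 K) ∣ δ - 1 ∧ (9 : ℤ) ∣ Algebra.norm ℤ δ - 1

/-- `δ` is a unit times a cube, or `1` modulo `3` with a norm that is `1` modulo `9`. -/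
def Exceptional (δ : 𝓞 K) : Prop :=
  (∃ u x : 𝓞 K, IsUnit u ∧ δ = u * x ^ 3) ∨
    ((3 : 𝓞 K) ∣ δ - 1 ∧ (9 : ℤ) ∣ Algebra.norm ℤ δ - 1)

/-- The coefficients: `a i` for the indices in `S`, `b i` for the others. -/
noncomputable def coeff {m : ℕ} (S : Finset (Fin m)) (b : Fin m → 𝓞 K) (a : ↥S → 𝓞 K) (i : Fin m) :
    𝓞 K := if h : i ∈ S then a ⟨i, h⟩ else b i

/-- The pairs `(T, ν)`, `T` a set of `k` indices. -/
abbrev Index (k r : ℕ) : Type :=
  ↥((Finset.univ : Finset (Fin (2 * k + 3))).powersetCard k) × (Fin r → ZMod 3)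

/-- The family: the free indices `S`, the fixed coefficients `b` (the `b i` for `i ∈ S` are not used) and
the elements `d`. -/
structure Data (K : Type) [Field K] (k r : ℕ) where
  S : Finset (Fin (2 * k + 3))
  b : Fin (2 * k + 3) → 𝓞 K
  d : Fin r → 𝓞 K

/-- The fixed elements are admissible and the `d i` independent; at least one coefficient is free. -/
def IsData {k r : ℕ} (D : Data K k r) : Prop :=
  D.S.Nonempty ∧ (∀ i, Admissible (D.b i)) ∧ (∀ i, Admissible (D.d i)) ∧ Independent D.d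

/-- The twist `δ_T d^ν`. -/
noncomputable def delta {k r : ℕ} (D : Data K k r) (p : Index k r) (a : ↥D.S → 𝓞 K) : 𝓞 K :=
  twist (coeff D.S D.b a) p.1 * power D.d p.2

/-- Related pairs: `δ δ'` or `δ δ'²` is a cube for all the values of the free coefficients. -/
def Related {k r : ℕ} (D : Data K k r) (p p' : Index k r) : Prop :=
  ∃ e : ℕ, (e = 1 ∨ e = 2) ∧ ∀ a : ↥D.S → 𝓞 K, ∃ x : 𝓞 K, delta D p a * delta D p' a ^ e = x ^ 3

/-- `R` is a system of representatives for the related pairs. -/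
def IsSystem {k r : ℕ} (D : Data K k r) (R : Finset (Index k r)) : Prop :=
  (∀ p ∈ R, ∀ p' ∈ R, p ≠ p' → ¬ Related D p p') ∧ ∀ p, ∃ p' ∈ R, Related D p p'

/-- No `δ_T d^ν` is exceptional. -/
def InFamily {k r : ℕ} (D : Data K k r) (a : ↥D.S → 𝓞 K) : Prop := ∀ p, ¬ Exceptional (delta D p a)

/-- `E_δ(K)` is finite and the `3`-primary part of `Ш(E_δ / K)` is trivial. -/
def FiniteAndTrivial (δ : 𝓞 K) : Prop :=
  Finite (curve (δ : K)).toAffine.Point ∧ ∀ (n : ℕ) (x : Sha (curve (δ : K))), 3 ^ n • x = 0 → x = 0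

/-- All the groups `E_{δ_T d^ν}(K)` are finite and all the `Ш(E_{δ_T d^ν} / K)[3^∞]` are trivial. -/
def AllTrivial {k r : ℕ} (D : Data K k r) (a : ↥D.S → 𝓞 K) : Prop :=
  ∀ p, FiniteAndTrivial (delta D p a)

/-- Nine representatives of the classes: `ω (1 + 3 m)`, `ω³ = 1`, `m = 0, 1, 2`. -/
def nine (K : Type) [Field K] : Set (𝓞 K) :=
  {x | ∃ (ω : 𝓞 K) (m : ℕ), ω ^ 3 = 1 ∧ m < 3 ∧ x = ω * (1 + 3 * m)}

/-- The density of the family: the proportion of the tuples of representatives such that no `δ_T d^ν` is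
`1` modulo `3` with a norm that is `1` modulo `9`. -/
noncomputable def kappa {k r : ℕ} (D : Data K k r) : ℝ :=
  ({u : ↥D.S → 𝓞 K | (∀ i, u i ∈ nine K) ∧ ∀ p, ¬ IsOne (delta D p u)}.ncard : ℝ) / 9 ^ D.S.card

/-- The number of the admissible tuples of norm at most `X` with the property `P`. -/
noncomputable def number {I : Type} (X : ℕ) (P : (I → 𝓞 K) → Prop) : ℝ :=
  ({a : I → 𝓞 K | (∀ i, Algebra.norm ℤ (a i) ≤ X ∧ Admissible (a i)) ∧ P a}.ncard : ℝ)

/-- The property `P` has the density `δ` among all the admissible tuples. -/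
def HasDensity {I : Type} (P : (I → 𝓞 K) → Prop) (δ : ℝ) : Prop :=
  Filter.Tendsto (fun X : ℕ => number X P / number X (fun _ : I → 𝓞 K => True)) Filter.atTop
    (nhds δ)

/-- `E_δ(F)` is finite and the `3`-primary part of `Ш(E_δ / F)` is killed by `3^r`. -/
def FiniteAndKilled (F : Type) [Field F] [NumberField F] [Algebra K F] (r : ℕ) (δ : 𝓞 K) : Prop :=
  Finite (curve (algebraMap K F δ)).toAffine.Point ∧
    ∀ (n : ℕ) (x : Sha (curve (algebraMap K F δ))), 3 ^ n • x = 0 → 3 ^ r • x = 0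

/-- The statement on `X_a` over `F`: the function `L(H^n(X_a / F), s)` is entire and, if all the
`E_{δ_T d^ν}(K)` are finite and all the `Ш(E_{δ_T d^ν} / K)[3^∞]` trivial, then it is not zero at the
centre, the `E_{δ_T}(F)` are finite and `3^r` kills the `Ш(E_{δ_T} / F)[3^∞]`. -/
def Conclusion {k r : ℕ} (D : Data K k r) (a : ↥D.S → 𝓞 K) (F : Type) [Field F] [NumberField F]
    [Algebra K F] : Prop :=
  ∃ L : ℂ → ℂ, IsLFunction (fun i => algebraMap (𝓞 K) (𝓞 F) (coeff D.S D.b a i)) L ∧
    (AllTrivial D a → L (k + 1) ≠ 0 ∧ ∀ T : Finset (Fin (2 * k + 3)), T.card = k →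
      FiniteAndKilled F r (twist (coeff D.S D.b a) T))

/-- **Main theorem.** -/
theorem result (K : Type) [Field K] [NumberField K] [IsCyclotomicExtension {3} ℚ K] :
    (0.639 : ℝ) < ∏' i : ℕ, (1 - (1 / 3 : ℝ) ^ (2 * i + 1)) ∧
    ∀ (k r : ℕ) (D : Data K k r), k ≤ 2 → IsData D →
      ((∃ a : ↥D.S → 𝓞 K, (∀ i, Admissible (a i)) ∧ InFamily D a) → 0 < kappa D) ∧
      (∃ C : ℝ, 0 < C ∧ ∃ X₀ : ℕ, ∀ X : ℕ, X₀ ≤ X →
        C * (X : ℝ) ^ D.S.card ≤ number X (fun _ : ↥D.S → 𝓞 K => True)) ∧
      HasDensity (InFamily D) (kappa D) ∧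
      (∃ R, IsSystem D R) ∧
      (∀ R, IsSystem D R → HasDensity (fun a : ↥D.S → 𝓞 K => InFamily D a ∧ AllTrivial D a)
        (kappa D * (∏' i : ℕ, (1 - (1 / 3 : ℝ) ^ (2 * i + 1))) ^ R.card)) ∧
      (∃ (F : Type) (_ : Field F) (_ : NumberField F) (_ : Algebra K F) (θ : Fin r → F),
        IsRadical D.d F θ) ∧
      ∀ (F : Type) [Field F] [NumberField F] [Algebra K F] (θ : Fin r → F), IsRadical D.d F θ →
        Module.finrank K F = 3 ^ r ∧
        ∀ a : ↥D.S → 𝓞 K, (∀ i, Admissible (a i)) → InFamily D a → Conclusion D a F := by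
  refine ⟨Pool.Agent.XLK.t_C9.2.2.2.1, fun k r D hk hD => ?_⟩
  obtain ⟨hS, hb, hd, hind⟩ := hD
  obtain ⟨S, b, d⟩ := D
  have e : ∀ X : ℕ, number X (fun _ : ↥S → 𝓞 K => True) =
      ({a : ↥S → 𝓞 K | ∀ i, Algebra.norm ℤ (a i) ≤ X ∧ Admissible (a i)}.ncard : ℝ) := by
    intro X
    unfold number
    simp only [and_true]
  have hex : ∃ R, IsSystem ⟨S, b, d⟩ R := Run7.h707.TF.ex_sys
    (Run7.h707.TF.RelS S (Pool.Agent.N883.FG.SS k) b d) Run7.h707.TF.relS_refl
    Run7.h707.TF.relS_symm
  obtain ⟨R₀, hR₀⟩ := hex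
  obtain ⟨h0, h1, h2, h3, h4⟩ := Run7.h707.TF.finS K hk hS hb hd hind R₀ hR₀.1 hR₀.2
  refine ⟨h0, ?_, ?_, ⟨R₀, hR₀⟩, fun R hR => ?_, Run7.h707.TE.ex_F (fun i => (d i : K)),
    fun F _ _ _ θ hθ => ⟨?_, fun a ha hF => ?_⟩⟩
  · simp only [e]
    exact h1
  · unfold HasDensity
    simp only [e]
    exact h2
  · obtain ⟨-, -, -, h3', -⟩ := Run7.h707.TF.finS K hk hS hb hd hind R hR.1 hR.2
    unfold HasDensity
    simp only [e]
    exact h3'
  · obtain ⟨⟨j, hj⟩, -⟩ := Pool.Agent.Y455.CTK.jex K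
    exact Run7.h707.TF.deg_C j hd hind F θ hθ.1 hθ.2
  · exact (h4 a ha hF F θ hθ.1 hθ.2).2

end Pool.Agent.Results.MP_6dc9d1_nt.PartlyFixedCoefficients
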